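import Pool.Agent.Q199.VD.Cut

/-!
The Morrey bound for the vorticity from the cone condition.
-/

open MeasureTheory Set Metric Filter Topology
open scoped ENNReal ContDiff
open H459R3.NS Pool.Agent.W268.NS Pool.Agent.Q67.VD

namespace Pool.Agent.Q199.VD

theorem sp_vort {v : V → V} (hv : ∀ i, SP (fun y => v y i)) (i : Fin 3) :
    SP (fun y => vort v y i) := by
  have h : ∀ a b c d : Fin 3, SP (fun y => gradM v y a b - gradM v y c d) := fun a b c d => by
    have h1 : SP (fun y => gradM v y a b) := (hv b).pd a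
    have h2 : SP (fun y => gradM v y c d) := (hv d).pd c
    exact ⟨h1.smooth.sub h2.smooth, fun i x => congrArg₂ (fun s t : ℝ => s - t) (h1.per i x)
      (h2.per i x)⟩
  fin_cases i
  · exact h 1 2 2 1
  · exact h 2 0 0 2
  · exact h 0 1 1 0

theorem pd_sub' {f g : V → ℝ} (hf : SP f) (hg : SP g) (j : Fin 3) (x : V) :
    pd j (fun y => f y - g y) x = pd j f x - pd j g x := by
  unfold pd
  have h : HasFDerivAt (fun y => f y - g y) _ x := (hf.diff x).hasFDerivAt.sub (hg.diff x).hasFDerivAt
  rw [h.fderiv]
  rfl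

theorem div_vort {v : V → V} (hv : ∀ i, SP (fun y => v y i)) (x : V) :
    ∑ i, pd i (fun y => vort v y i) x = 0 := by
  have e : ∀ i a b c d : Fin 3, pd i (fun y => gradM v y a b - gradM v y c d) x
      = pd i (pd a (fun y => v y b)) x - pd i (pd c (fun y => v y d)) x := fun i a b c d =>
    pd_sub' ((hv b).pd a) ((hv d).pd c) i x
  rw [Fin.sum_univ_three]
  have e0 := e 0 1 2 2 1
  have e1 := e 1 2 0 0 2
  have e2 := e 2 0 1 1 0
  have h0 : pd 0 (fun y => vort v y 0) x = pd 0 (fun y => gradM v y 1 2 - gradM v y 2 1) x := rfl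
  have h1 : pd 1 (fun y => vort v y 1) x = pd 1 (fun y => gradM v y 2 0 - gradM v y 0 2) x := rfl
  have h2 : pd 2 (fun y => vort v y 2) x = pd 2 (fun y => gradM v y 0 1 - gradM v y 1 0) x := rfl
  rw [h0, h1, h2, e0, e1, e2, pd_comm (hv 2) 0 1, pd_comm (hv 1) 0 2, pd_comm (hv 0) 1 2]
  ring

theorem om_nonneg (v : V → V) (x : V) : 0 ≤ om v x := Real.sqrt_nonneg _

theorem dot_self_nonneg (a : V) : 0 ≤ a ⬝ᵥ a := by
  rw [dotProduct, Fin.sum_univ_three]
  nlinarith [mul_self_nonneg (a 0), mul_self_nonneg (a 1), mul_self_nonneg (a 2)]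

theorem om_sq (v : V → V) (x : V) : om v x ^ 2 = vort v x ⬝ᵥ vort v x :=
  Real.sq_sqrt (dot_self_nonneg _)

theorem om_cont {v : V → V} (hv : ∀ i, SP (fun y => v y i)) : Continuous (om v) := by
  have h : Continuous (fun x => vort v x ⬝ᵥ vort v x) := by
    simp only [dotProduct]
    exact continuous_finsetSum _ fun i _ => (sp_vort hv i).cont.mul (sp_vort hv i).cont
  exact h.sqrt

theorem abs_le_len (a : V) (i : Fin 3) : |a i| ≤ len a := by
  refine Real.abs_le_sqrt ?_
  rw [dotProduct, Fin.sum_univ_three]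
  fin_cases i <;> simp only [Fin.zero_eta, Fin.mk_one, Fin.reduceFinMk] <;>
    nlinarith [mul_self_nonneg (a 0), mul_self_nonneg (a 1), mul_self_nonneg (a 2)]

theorem dot_le_len (a b : V) : |a ⬝ᵥ b| ≤ len a * len b := by
  rw [len, len, ← Real.sqrt_mul (dot_self_nonneg a)]
  refine Real.abs_le_sqrt ?_
  simp only [dotProduct, Fin.sum_univ_three]
  nlinarith [sq_nonneg (a 0 * b 1 - a 1 * b 0), sq_nonneg (a 0 * b 2 - a 2 * b 0),
    sq_nonneg (a 1 * b 2 - a 2 * b 1)]

/-- The integral of `f ∂ⱼ χ` for a cut-off function. -/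
theorem cut_bound {χ f : V → ℝ} {x : V} {ρ B : ℝ} {j : Fin 3} (hf : Continuous f)
    (hb : ∀ y, |pd j χ y| ≤ B) (h0 : ∀ y, y ∉ closedBall x ρ → pd j χ y = 0) :
    |∫ y, pd j χ y * f y| ≤ B * ∫ y in closedBall x ρ, |f y| := by
  rw [← setIntegral_eq_integral_of_forall_compl_eq_zero (s := closedBall x ρ)
    (f := fun y => pd j χ y * f y) (fun y hy => by rw [h0 y hy, zero_mul]), ← integral_const_mul]
  refine abs_integral_le_integral_abs.trans ?_
  refine integral_mono_of_nonneg (Eventually.of_forall fun y => abs_nonneg _)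
    ((continuous_const.mul hf.abs).continuousOn.integrableOn_compact (isCompact_closedBall _ _))
    (Eventually.of_forall fun y => ?_)
  show |pd j χ y * f y| ≤ B * |f y|
  rw [abs_mul]
  exact mul_le_mul_of_nonneg_right (hb y) (abs_nonneg _)

/-- The Cauchy-Schwarz inequality on a small cube. -/
theorem ball_cs {f : V → ℝ} (hf : SP f) (x : V) {R : ℝ} (hR : 0 < R) (hR1 : R ≤ 1) {E : ℝ}
    (hE : ∫ y in cube, f y ^ 2 ≤ E) :
    ∫ y in closedBall x (R / 2), |f y| ≤ √(R ^ 3 * E) := by
  set J := ∫ y in closedBall x (R / 2), |f y| with hJ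
  have hv : volume.real (closedBall x (R / 2)) = R ^ 3 := by
    rw [vol_ball x (by positivity)]; ring
  have hJ0 : 0 ≤ J := integral_nonneg fun y => abs_nonneg _
  have h2 : ∫ y in closedBall x (R / 2), f y ^ 2 ≤ E :=
    (ball_le (f := fun y => f y ^ 2) (fun i y => by simp only [hf.per i y]) (hf.cont.pow 2)
      (fun y => sq_nonneg _) x (by linarith)).trans hE
  have i1 : IntegrableOn (fun y => |f y|) (closedBall x (R / 2)) :=
    hf.cont.abs.continuousOn.integrableOn_compact (isCompact_closedBall _ _)
  have i2 : IntegrableOn (fun y => f y ^ 2) (closedBall x (R / 2)) :=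
    (hf.cont.pow 2).continuousOn.integrableOn_compact (isCompact_closedBall _ _)
  have i3 : IntegrableOn (fun _ : V => (J / R ^ 3) ^ 2) (closedBall x (R / 2)) :=
    continuous_const.continuousOn.integrableOn_compact (isCompact_closedBall _ _)
  have h3 : 0 ≤ ∫ y in closedBall x (R / 2), (|f y| - J / R ^ 3) ^ 2 :=
    integral_nonneg fun y => sq_nonneg _
  have h4 : ∫ y in closedBall x (R / 2), (|f y| - J / R ^ 3) ^ 2
      = (∫ y in closedBall x (R / 2), f y ^ 2) - 2 * (J / R ^ 3) * J
        + R ^ 3 * (J / R ^ 3) ^ 2 := by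
    have e : ∀ y, (|f y| - J / R ^ 3) ^ 2
        = (f y ^ 2 - 2 * (J / R ^ 3) * |f y|) + (J / R ^ 3) ^ 2 := fun y => by
      rw [← sq_abs (f y)]; ring
    have i4 : IntegrableOn (fun y => 2 * (J / R ^ 3) * |f y|) (closedBall x (R / 2)) :=
      i1.const_mul _
    have i5 : IntegrableOn (fun y => f y ^ 2 - 2 * (J / R ^ 3) * |f y|) (closedBall x (R / 2)) :=
      i2.sub i4
    simp_rw [e]
    rw [integral_add i5 i3, integral_sub i2 i4, integral_const_mul, setIntegral_const, hv,
      smul_eq_mul]
  have h5 : 2 * (J / R ^ 3) * J - R ^ 3 * (J / R ^ 3) ^ 2 = J ^ 2 / R ^ 3 := by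
    field_simp; ring
  have h6 : J ^ 2 / R ^ 3 ≤ E := by linarith
  rw [div_le_iff₀ (by positivity)] at h6
  refine Real.le_sqrt_of_sq_le ?_
  linarith


theorem energy_comp (v : V → V) (i : Fin 3) : ∫ y in cube, v y i ^ 2 ≤ energy v :=
  Finset.single_le_sum (f := fun i => ∫ y in cube, v y i ^ 2)
    (fun _ _ => integral_nonneg fun _ => sq_nonneg _) (Finset.mem_univ i)

theorem energy_nonneg (v : V → V) : 0 ≤ energy v :=
  Finset.sum_nonneg fun _ _ => integral_nonneg fun _ => sq_nonneg _

/-- The integral of a component of the vorticity against a cut-off function. -/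
theorem curl_bound {v : V → V} (hv : ∀ i, SP (fun y => v y i)) {χ : V → ℝ} {x : V} {R B : ℝ}
    (hR : 0 < R) (hR1 : R ≤ 1) (hχ : ContDiff ℝ ∞ χ) (hs : HasCompactSupport χ) (hB : 0 ≤ B)
    (hb : ∀ j y, |pd j χ y| ≤ B) (h0 : ∀ j y, y ∉ closedBall x (R / 2) → pd j χ y = 0)
    (i : Fin 3) :
    |∫ y, χ y * vort v y i| ≤ 2 * B * √(R ^ 3 * energy v) := by
  have h1 : ∀ a b, |∫ y, χ y * pd a (fun z => v z b) y| ≤ B * √(R ^ 3 * energy v) := by
    intro a b
    rw [ibp_cut (hχ.of_le (by norm_cast)) hs ((hv b).smooth.of_le (by norm_cast)) a, abs_neg]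
    refine (cut_bound (hv b).cont (hb a) (h0 a)).trans ?_
    exact mul_le_mul_of_nonneg_left (ball_cs (hv b) x hR hR1 (energy_comp v b)) hB
  have hint : ∀ a b, Integrable (fun y => χ y * pd a (fun z => v z b) y) := fun a b =>
    (hχ.continuous.mul ((hv b).pd a).cont).integrable_of_hasCompactSupport hs.mul_right
  have h2 : ∀ a b c d, |∫ y, χ y * (gradM v y a b - gradM v y c d)|
      ≤ 2 * B * √(R ^ 3 * energy v) := by
    intro a b c d
    have e : ∫ y, χ y * (gradM v y a b - gradM v y c d)
        = (∫ y, χ y * pd a (fun z => v z b) y) - ∫ y, χ y * pd c (fun z => v z d) y := by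
      rw [← integral_sub (hint a b) (hint c d)]
      exact integral_congr_ae (Eventually.of_forall fun y => mul_sub _ _ _)
    rw [e]
    have := abs_sub (∫ y, χ y * pd a (fun z => v z b) y) (∫ y, χ y * pd c (fun z => v z d) y)
    linarith [h1 a b, h1 c d]
  fin_cases i
  · exact h2 1 2 2 1
  · exact h2 2 0 0 2
  · exact h2 0 1 1 0

/-- The flux identity. -/
theorem flux_id {z : Fin 3 → V → ℝ} (hz : ∀ i, SP (z i)) (hdiv : ∀ y, ∑ i, pd i (z i) y = 0)
    {χ : V → ℝ} (hχ : ContDiff ℝ ∞ χ) (hs : HasCompactSupport χ) (e x : V) {r : ℝ} (hr : 0 < r) :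
    ∫ y, χ y * (1 + ((e ⬝ᵥ (y - x)) / r) ^ 2)⁻¹ * ∑ i, e i * z i y
      = -∑ i, ∫ y, pd i χ y * (r * Real.arctan ((e ⬝ᵥ (y - x)) / r) * z i y) := by
  set s : V → ℝ := fun y => (e ⬝ᵥ (y - x)) / r with hsdef
  have hlin : ∀ y, HasFDerivAt (fun y : V => e ⬝ᵥ (y - x))
      (∑ i, e i • (ContinuousLinearMap.proj i : V →L[ℝ] ℝ)) y := by
    intro y
    have h1 : HasFDerivAt (fun y : V => ∑ i, e i * (y i - x i))
        (∑ i, e i • (ContinuousLinearMap.proj i : V →L[ℝ] ℝ)) y := by
      refine HasFDerivAt.fun_sum fun i _ => ?_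
      exact ((ContinuousLinearMap.proj (R := ℝ) (φ := fun _ : Fin 3 => ℝ) i).hasFDerivAt.sub_const
        (x i)).const_mul (e i)
    exact h1
  have hsm : ContDiff ℝ ∞ s := by
    have h1 : ContDiff ℝ ∞ (fun y : V => ∑ i, e i * (y i - x i)) :=
      ContDiff.sum fun i _ => contDiff_const.mul ((contDiff_apply ℝ ℝ i).sub contDiff_const)
    exact h1.div_const r
  have hds : ∀ y, HasFDerivAt s (r⁻¹ • ∑ i, e i • (ContinuousLinearMap.proj i : V →L[ℝ] ℝ)) y := by
    intro y
    have := (hlin y).mul_const r⁻¹
    exact this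
  have hA : ContDiff ℝ ∞ (fun y => r * Real.arctan (s y)) :=
    contDiff_const.mul (Real.contDiff_arctan.comp hsm)
  have hF : ContDiff ℝ ∞ (fun y => χ y * (r * Real.arctan (s y))) := hχ.mul hA
  have hFs : HasCompactSupport (fun y => χ y * (r * Real.arctan (s y))) := hs.mul_right
  have hpd : ∀ i y, pd i (fun y => χ y * (r * Real.arctan (s y))) y
      = pd i χ y * (r * Real.arctan (s y)) + χ y * (1 + s y ^ 2)⁻¹ * e i := by
    intro i y
    have h1 : HasFDerivAt (fun y => r * Real.arctan (s y))
        (r • ((1 / (1 + s y ^ 2)) • (r⁻¹ • ∑ i, e i • (ContinuousLinearMap.proj i : V →L[ℝ] ℝ)))) y :=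
      (HasFDerivAt.arctan (hds y)).const_mul r
    have h2 : HasFDerivAt (fun y => χ y * (r * Real.arctan (s y))) _ y :=
      ((hχ.differentiable (by norm_num) y).hasFDerivAt).mul h1
    unfold pd
    rw [h2.fderiv]
    have h3 : (∑ k, e k • (ContinuousLinearMap.proj k : V →L[ℝ] ℝ)) (Pi.single i 1) = e i := by
      rw [sum_apply]
      rw [Finset.sum_eq_single i]
      · show e i * (Pi.single i (1 : ℝ) : V) i = e i
        rw [Pi.single_eq_same, mul_one]
      · intro k _ hk
        show e k * (Pi.single i (1 : ℝ) : V) k = 0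
        rw [Pi.single_eq_of_ne hk, mul_zero]
      · intro h; exact absurd (Finset.mem_univ i) h
    show χ y * (r * (1 / (1 + s y ^ 2) * (r⁻¹ *
      (∑ k, e k • (ContinuousLinearMap.proj k : V →L[ℝ] ℝ)) (Pi.single i 1))))
      + r * Real.arctan (s y) * fderiv ℝ χ y (Pi.single i 1) = _
    rw [h3]
    field_simp
    ring
  have hI : ∀ i, Integrable (fun y => pd i (fun y => χ y * (r * Real.arctan (s y))) y * z i y) := by
    intro i
    have c1 : Continuous (fun y => fderiv ℝ (fun y => χ y * (r * Real.arctan (s y))) y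
        (Pi.single i 1)) := (hF.continuous_fderiv (by norm_num)).clm_apply continuous_const
    exact (c1.mul (hz i).cont).integrable_of_hasCompactSupport (hFs.fderiv_apply (𝕜 := ℝ) _).mul_right
  have h0 : ∑ i, ∫ y, pd i (fun y => χ y * (r * Real.arctan (s y))) y * z i y = 0 := by
    have h1 : ∀ i, ∫ y, pd i (fun y => χ y * (r * Real.arctan (s y))) y * z i y
        = -∫ y, χ y * (r * Real.arctan (s y)) * pd i (z i) y := by
      intro i
      rw [ibp_cut (hF.of_le (by norm_cast)) hFs ((hz i).smooth.of_le (by norm_cast)) i, neg_neg]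
    simp_rw [h1]
    rw [Finset.sum_neg_distrib, ← integral_finsetSum]
    · have : ∀ y, ∑ i, χ y * (r * Real.arctan (s y)) * pd i (z i) y = 0 := fun y => by
        rw [← Finset.mul_sum, hdiv, mul_zero]
      simp_rw [this]
      simp
    · intro i _
      exact (hF.continuous.mul ((hz i).pd i).cont).integrable_of_hasCompactSupport hFs.mul_right
  have hJ : ∀ i, Integrable (fun y => pd i χ y * (r * Real.arctan (s y) * z i y)) := by
    intro i
    have c1 : Continuous (fun y => fderiv ℝ χ y (Pi.single i 1)) :=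
      (hχ.continuous_fderiv (by norm_num)).clm_apply continuous_const
    exact (c1.mul (hA.continuous.mul (hz i).cont)).integrable_of_hasCompactSupport
      (hs.fderiv_apply (𝕜 := ℝ) _).mul_right
  have hK : ∀ i, Integrable (fun y => χ y * (1 + s y ^ 2)⁻¹ * (e i * z i y)) := by
    intro i
    have c1 : Continuous (fun y => (1 + s y ^ 2)⁻¹) :=
      (continuous_const.add (hsm.continuous.pow 2)).inv₀ fun y => by
        show 1 + s y ^ 2 ≠ 0
        have := sq_nonneg (s y)
        linarith
    exact ((hχ.continuous.mul c1).mul (continuous_const.mul (hz i).cont)).integrable_of_hasCompactSupport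
      (hs.mul_right.mul_right)
  have h1 : ∀ i, ∫ y, pd i (fun y => χ y * (r * Real.arctan (s y))) y * z i y
      = (∫ y, pd i χ y * (r * Real.arctan (s y) * z i y))
        + ∫ y, χ y * (1 + s y ^ 2)⁻¹ * (e i * z i y) := by
    intro i
    rw [← integral_add (hJ i) (hK i)]
    refine integral_congr_ae (Eventually.of_forall fun y => ?_)
    show pd i (fun y => χ y * (r * Real.arctan (s y))) y * z i y = _
    rw [hpd]
    ring
  simp_rw [h1] at h0
  rw [Finset.sum_add_distrib, ← integral_finsetSum (f := fun i y => χ y * (1 + s y ^ 2)⁻¹ * (e i * z i y))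
    _ fun i _ => hK i] at h0
  have h2 : ∀ y, ∑ i, χ y * (1 + s y ^ 2)⁻¹ * (e i * z i y)
      = χ y * (1 + s y ^ 2)⁻¹ * ∑ i, e i * z i y := fun y => by rw [Finset.mul_sum]
  simp_rw [h2] at h0
  show ∫ y, χ y * (1 + s y ^ 2)⁻¹ * ∑ i, e i * z i y
    = -∑ i, ∫ y, pd i χ y * (r * Real.arctan (s y) * z i y)
  linarith

theorem flux : StmFlux := by
  obtain ⟨D, hD, hcut⟩ := exists_cut
  refine ⟨480 * D * (24 * D + 3) + 8, by positivity, ?_⟩
  intro v M R κ hv hdiv hM hR hR1 hκ hκ1 hcone x r hr hr8
  set E := energy v with hE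
  have hE0 : 0 ≤ E := energy_nonneg v
  set w := vort v with hw
  have hom : ∀ y, |om v y| = om v y := fun y => abs_of_nonneg (om_nonneg v y)
  simp_rw [hom]
  have omI : ∀ x ρ, IntegrableOn (om v) (closedBall x ρ) := fun x ρ =>
    (om_cont hv).continuousOn.integrableOn_compact (isCompact_closedBall _ _)
  have hκ2 : 0 < κ ^ 2 := by positivity
  have hsq : 0 ≤ √(E / R) := Real.sqrt_nonneg _
  by_cases hcase : ∀ y ∈ closedBall x r, om v y ≤ M
  · have h1 : ∫ y in closedBall x r, om v y ≤ ∫ _ in closedBall x r, M :=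
      setIntegral_mono_on (omI x r)
        (continuous_const.continuousOn.integrableOn_compact (isCompact_closedBall _ _))
        measurableSet_closedBall hcase
    rw [setIntegral_const, vol_ball x hr.le, smul_eq_mul] at h1
    refine h1.trans ?_
    have h2 : (2 * r) ^ 3 * M ≤ M * R ^ 2 * r := by
      have h3 : r ^ 2 ≤ (R / 8) ^ 2 := pow_le_pow_left₀ hr.le hr8 2
      have h4 : 0 ≤ M * r := by positivity
      nlinarith [mul_le_mul_of_nonneg_left h3 h4, mul_nonneg h4 (sq_nonneg R)]
    refine h2.trans (mul_le_mul_of_nonneg_right ?_ hr.le)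
    have h5 : 1 ≤ (480 * D * (24 * D + 3) + 8) / κ ^ 2 := by
      rw [le_div_iff₀ hκ2]
      have : κ ^ 2 ≤ 1 := pow_le_one₀ hκ.le hκ1
      nlinarith [mul_pos hD hD, hD]
    have h6 : 0 ≤ √(E / R) + M * R ^ 2 := by positivity
    nlinarith [mul_le_mul_of_nonneg_right h5 h6]
  · push Not at hcase
    obtain ⟨y0, hy0, hMy0⟩ := hcase
    have hom0 : 0 < om v y0 := lt_of_le_of_lt hM hMy0
    set e : V := fun i => w y0 i / om v y0 with he
    have hee : e ⬝ᵥ e = 1 := by
      have h1 : e ⬝ᵥ e = (w y0 ⬝ᵥ w y0) / om v y0 ^ 2 := by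
        simp only [dotProduct, he, Finset.sum_div]
        exact Finset.sum_congr rfl fun i _ => by field_simp
      rw [h1, ← om_sq v y0, div_self (by positivity)]
    have hle : len e = 1 := by rw [len, hee, Real.sqrt_one]
    have hei : ∀ i, |e i| ≤ 1 := fun i => (abs_le_len e i).trans hle.le
    have hew : ∀ y, e ⬝ᵥ w y = (w y0 ⬝ᵥ w y) / om v y0 := fun y => by
      simp only [dotProduct, he, Finset.sum_div]
      exact Finset.sum_congr rfl fun i _ => by ring
    have hewle : ∀ y, |e ⬝ᵥ w y| ≤ om v y := fun y => by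
      have := dot_le_len e (w y)
      rw [hle, one_mul] at this
      exact this
    have hclose : ∀ y ∈ closedBall x (R / 2), ‖y0 - y‖ ≤ R := fun y hy => by
      rw [← dist_eq_norm]
      have h1 := dist_triangle_right y0 y x
      have h2 := mem_closedBall.1 hy0
      have h3 := mem_closedBall.1 hy
      linarith
    have hlow : ∀ y ∈ closedBall x (R / 2), κ * om v y ≤ e ⬝ᵥ w y + 2 * M := by
      intro y hy
      by_cases hy1 : M < om v y
      · have h1 := hcone y0 y (hclose y hy) hMy0 hy1
        have h2 : κ * om v y ≤ e ⬝ᵥ w y := by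
          rw [hew, le_div_iff₀ hom0]
          calc κ * om v y * om v y0 = κ * (om v y0 * om v y) := by ring
            _ ≤ _ := h1
        linarith
      · rw [not_lt] at hy1
        have h1 := (abs_le.1 (hewle y)).1
        have h2 : κ * om v y ≤ M := by
          have := mul_le_mul hκ1 hy1 (om_nonneg v y) zero_le_one
          linarith
        linarith
    have hnn : ∀ y ∈ closedBall x (R / 2), 0 ≤ e ⬝ᵥ w y + 2 * M := fun y hy =>
      (mul_nonneg hκ.le (om_nonneg v y)).trans (hlow y hy)
    have ewc : Continuous (fun y => e ⬝ᵥ w y) := by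
      simp only [dotProduct]
      exact continuous_finsetSum _ fun i _ => continuous_const.mul (sp_vort hv i).cont
    -- first step
    have step1 : κ * ∫ y in closedBall x (R / 4), om v y
        ≤ 24 * D * (√R * √E) + 2 * M * R ^ 3 := by
      obtain ⟨χ, hχ, hs, hχ0, hχ1, hone, hzero, hpd, hpd0⟩ := hcut x (R / 4) (by positivity)
      rw [show 2 * (R / 4) = R / 2 by ring] at hzero hpd0
      have hint : Integrable (fun y => χ y * (e ⬝ᵥ w y + 2 * M)) :=
        (hχ.continuous.mul (ewc.add continuous_const)).integrable_of_hasCompactSupport hs.mul_right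
      have hnn' : ∀ y, 0 ≤ χ y * (e ⬝ᵥ w y + 2 * M) := fun y => by
        by_cases hy : y ∈ closedBall x (R / 2)
        · exact mul_nonneg (hχ0 y) (hnn y hy)
        · rw [hzero y hy, zero_mul]
      have h1 : κ * ∫ y in closedBall x (R / 4), om v y
          ≤ ∫ y in closedBall x (R / 4), χ y * (e ⬝ᵥ w y + 2 * M) := by
        rw [← integral_const_mul]
        refine setIntegral_mono_on ((omI x _).const_mul κ) hint.integrableOn
          measurableSet_closedBall fun y hy => ?_
        rw [hone y hy, one_mul]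
        exact hlow y (closedBall_subset_closedBall (by linarith) hy)
      have h2 : ∫ y in closedBall x (R / 4), χ y * (e ⬝ᵥ w y + 2 * M)
          ≤ ∫ y, χ y * (e ⬝ᵥ w y + 2 * M) :=
        setIntegral_le_integral hint (Eventually.of_forall hnn')
      have hχi : Integrable χ := hχ.continuous.integrable_of_hasCompactSupport hs
      have hwi : ∀ i, Integrable (fun y => χ y * w y i) := fun i =>
        (hχ.continuous.mul (sp_vort hv i).cont).integrable_of_hasCompactSupport hs.mul_right
      have h3 : ∫ y, χ y * (e ⬝ᵥ w y + 2 * M)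
          = (∑ i, e i * ∫ y, χ y * w y i) + 2 * M * ∫ y, χ y := by
        have e1 : ∀ y, χ y * (e ⬝ᵥ w y + 2 * M)
            = (∑ i, e i * (χ y * w y i)) + 2 * M * χ y := fun y => by
          simp only [dotProduct]
          rw [mul_add, Finset.mul_sum]
          congr 1
          · exact Finset.sum_congr rfl fun i _ => by ring
          · ring
        simp_rw [e1]
        rw [integral_add (integrable_finsetSum _ fun i _ => (hwi i).const_mul _)
          (hχi.const_mul _), integral_finsetSum _ fun i _ => (hwi i).const_mul _,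
          integral_const_mul]
        simp_rw [integral_const_mul]
      have h4 : ∫ y, χ y ≤ R ^ 3 := by
        have e1 : ∫ y, χ y = ∫ y in closedBall x (R / 2), χ y :=
          (setIntegral_eq_integral_of_forall_compl_eq_zero fun y hy => hzero y hy).symm
        rw [e1]
        have h5 : ∫ y in closedBall x (R / 2), χ y ≤ ∫ _ in closedBall x (R / 2), (1 : ℝ) :=
          setIntegral_mono_on hχi.integrableOn
            (continuous_const.continuousOn.integrableOn_compact (isCompact_closedBall _ _))
            measurableSet_closedBall fun y _ => hχ1 y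
        rw [setIntegral_const, vol_ball x (by positivity), smul_eq_mul, mul_one,
          show 2 * (R / 2) = R by ring] at h5
        exact h5
      have h6 : ∀ i, e i * ∫ y, χ y * w y i ≤ 8 * D * (√R * √E) := by
        intro i
        have h7 := curl_bound hv hR hR1 hχ hs (B := D / (R / 4)) (by positivity) hpd hpd0 i
        have h8 : 2 * (D / (R / 4)) * √(R ^ 3 * energy v) = 8 * D * (√R * √E) := by
          have e1 : √(R ^ 3 * energy v) = R * (√R * √E) := by
            rw [show R ^ 3 * energy v = R ^ 2 * (R * E) by rw [hE]; ring,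
              Real.sqrt_mul (by positivity), Real.sqrt_sq hR.le, Real.sqrt_mul hR.le]
          rw [e1]
          field_simp
          ring
        rw [h8] at h7
        calc e i * ∫ y, χ y * w y i ≤ |e i * ∫ y, χ y * w y i| := le_abs_self _
          _ = |e i| * |∫ y, χ y * w y i| := abs_mul _ _
          _ ≤ 1 * (8 * D * (√R * √E)) := mul_le_mul (hei i) h7 (abs_nonneg _) zero_le_one
          _ = _ := one_mul _
      have h9 : ∑ i, e i * ∫ y, χ y * w y i ≤ 24 * D * (√R * √E) := by
        rw [Fin.sum_univ_three]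
        linarith [h6 0, h6 1, h6 2]
      have h10 : 2 * M * ∫ y, χ y ≤ 2 * M * R ^ 3 := mul_le_mul_of_nonneg_left h4 (by positivity)
      linarith
    -- second step
    have step2 : κ / 10 * ∫ y in closedBall x r, om v y
        ≤ 48 * D * r / R * ((∫ y in closedBall x (R / 4), om v y) + M * R ^ 3 / 4) := by
      obtain ⟨χ, hχ, hs, hχ0, hχ1, hone, hzero, hpd, hpd0⟩ := hcut x (R / 8) (by positivity)
      rw [show 2 * (R / 8) = R / 4 by ring] at hzero hpd0
      have hzs : ∀ i, SP (fun y => w y i + 2 * M * e i) := fun i =>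
        ⟨(sp_vort hv i).smooth.add contDiff_const, fun j y =>
          congrArg (fun s : ℝ => s + 2 * M * e i) ((sp_vort hv i).per j y)⟩
      have hzd : ∀ y, ∑ i, pd i (fun y => w y i + 2 * M * e i) y = 0 := fun y => by
        rw [← div_vort hv y]
        refine Finset.sum_congr rfl fun i _ => ?_
        unfold pd
        rw [fderiv_add_const]
      have hid := flux_id hzs hzd hχ hs e x hr
      have hez : ∀ y, ∑ i, e i * (w y i + 2 * M * e i) = e ⬝ᵥ w y + 2 * M := fun y => by
        have e1 : ∑ i, e i * (w y i + 2 * M * e i) = e ⬝ᵥ w y + 2 * M * (e ⬝ᵥ e) := by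
          simp only [dotProduct, Fin.sum_univ_three]
          ring
        rw [e1, hee, mul_one]
      simp_rw [hez] at hid
      set s : V → ℝ := fun y => (e ⬝ᵥ (y - x)) / r with hsdef
      have hscont : Continuous s := by
        have h1 : Continuous (fun y : V => ∑ i, e i * (y i - x i)) :=
          continuous_finsetSum _ fun i _ => continuous_const.mul
            ((continuous_apply i).sub continuous_const)
        exact h1.div_const r
      have hden : ∀ y, 0 < 1 + s y ^ 2 := fun y => by positivity
      have hq : Continuous (fun y => χ y * (1 + s y ^ 2)⁻¹ * (e ⬝ᵥ w y + 2 * M)) :=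
        (hχ.continuous.mul ((continuous_const.add (hscont.pow 2)).inv₀ fun y =>
          (hden y).ne')).mul (ewc.add continuous_const)
      have hqi : Integrable (fun y => χ y * (1 + s y ^ 2)⁻¹ * (e ⬝ᵥ w y + 2 * M)) :=
        hq.integrable_of_hasCompactSupport hs.mul_right.mul_right
      have hqn : ∀ y, 0 ≤ χ y * (1 + s y ^ 2)⁻¹ * (e ⬝ᵥ w y + 2 * M) := fun y => by
        by_cases hy : y ∈ closedBall x (R / 4)
        · exact mul_nonneg (mul_nonneg (hχ0 y) (inv_nonneg.2 (hden y).le))
            (hnn y (closedBall_subset_closedBall (by linarith) hy))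
        · rw [hzero y hy, zero_mul, zero_mul]
      have hsle : ∀ y ∈ closedBall x r, |s y| ≤ 3 := by
        intro y hy
        have h1 : ∀ i, |y i - x i| ≤ r := fun i => by
          have := (dist_pi_le_iff hr.le).1 (mem_closedBall.1 hy) i
          rwa [Real.dist_eq] at this
        have h2 : ∀ i, |e i * (y i - x i)| ≤ r := fun i => by
          rw [abs_mul]
          calc |e i| * |y i - x i| ≤ 1 * r := mul_le_mul (hei i) (h1 i) (abs_nonneg _) zero_le_one
            _ = r := one_mul r
        have h3 : |e ⬝ᵥ (y - x)| ≤ 3 * r := by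
          have e1 : e ⬝ᵥ (y - x) = e 0 * (y 0 - x 0) + e 1 * (y 1 - x 1) + e 2 * (y 2 - x 2) := by
            simp only [dotProduct, Fin.sum_univ_three, Pi.sub_apply]
          rw [e1]
          refine (abs_add_three _ _ _).trans ?_
          linarith [h2 0, h2 1, h2 2]
        show |(e ⬝ᵥ (y - x)) / r| ≤ 3
        rw [abs_div, abs_of_pos hr, div_le_iff₀ hr]
        exact h3
      have h1 : κ / 10 * ∫ y in closedBall x r, om v y
          ≤ ∫ y in closedBall x r, χ y * (1 + s y ^ 2)⁻¹ * (e ⬝ᵥ w y + 2 * M) := by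
        rw [← integral_const_mul]
        refine setIntegral_mono_on ((omI x _).const_mul _) hqi.integrableOn
          measurableSet_closedBall fun y hy => ?_
        have hy2 : y ∈ closedBall x (R / 2) := closedBall_subset_closedBall (by linarith) hy
        rw [hone y (closedBall_subset_closedBall hr8 hy), one_mul]
        have h2 : (1 / 10 : ℝ) ≤ (1 + s y ^ 2)⁻¹ := by
          rw [one_div]
          refine inv_anti₀ (hden y) ?_
          have := sq_le_sq' (by linarith [(abs_le.1 (hsle y hy)).1]) (abs_le.1 (hsle y hy)).2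
          linarith
        calc κ / 10 * om v y = 1 / 10 * (κ * om v y) := by ring
          _ ≤ (1 + s y ^ 2)⁻¹ * (e ⬝ᵥ w y + 2 * M) :=
            mul_le_mul h2 (hlow y hy2) (mul_nonneg hκ.le (om_nonneg v y)) (inv_nonneg.2 (hden y).le)
      have h2 : ∫ y in closedBall x r, χ y * (1 + s y ^ 2)⁻¹ * (e ⬝ᵥ w y + 2 * M)
          ≤ ∫ y, χ y * (1 + s y ^ 2)⁻¹ * (e ⬝ᵥ w y + 2 * M) :=
        setIntegral_le_integral hqi (Eventually.of_forall hqn)
      have h3 : ∀ i, -∫ y, pd i χ y * (r * Real.arctan (s y) * (w y i + 2 * M * e i))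
          ≤ 16 * D * r / R * ((∫ y in closedBall x (R / 4), om v y) + M * R ^ 3 / 4) := by
        intro i
        have hfc : Continuous (fun y => r * Real.arctan (s y) * (w y i + 2 * M * e i)) :=
          (continuous_const.mul (Real.continuous_arctan.comp hscont)).mul (hzs i).cont
        have h4 := cut_bound (χ := χ) (x := x) (ρ := R / 4) (j := i) hfc (hpd i) (hpd0 i)
        have h5 : ∫ y in closedBall x (R / 4), |r * Real.arctan (s y) * (w y i + 2 * M * e i)|
            ≤ ∫ y in closedBall x (R / 4), (2 * r) * (om v y + 2 * M) := by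
          refine setIntegral_mono_on
            (hfc.abs.continuousOn.integrableOn_compact (isCompact_closedBall _ _))
            ((continuous_const.mul ((om_cont hv).add continuous_const)).continuousOn.integrableOn_compact
              (isCompact_closedBall _ _)) measurableSet_closedBall fun y _ => ?_
          rw [abs_mul, abs_mul, abs_of_pos hr]
          have h6 : |Real.arctan (s y)| ≤ 2 := by
            rw [abs_le]
            have hpi := Real.pi_lt_four
            have a1 := Real.neg_pi_div_two_lt_arctan (s y)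
            have a2 := Real.arctan_lt_pi_div_two (s y)
            constructor <;> linarith
          have h7 : |w y i + 2 * M * e i| ≤ om v y + 2 * M := by
            refine (abs_add_le _ _).trans (add_le_add (abs_le_len (w y) i) ?_)
            rw [abs_mul, abs_of_nonneg (by positivity : 0 ≤ 2 * M)]
            have := mul_le_mul_of_nonneg_left (hei i) (by positivity : 0 ≤ 2 * M)
            linarith
          calc r * |Real.arctan (s y)| * |w y i + 2 * M * e i|
              ≤ (r * 2) * (om v y + 2 * M) :=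
                mul_le_mul (mul_le_mul_of_nonneg_left h6 hr.le) h7 (abs_nonneg _) (by positivity)
            _ = _ := by ring
        have h8 : ∫ y in closedBall x (R / 4), (2 * r) * (om v y + 2 * M)
            = 2 * r * ((∫ y in closedBall x (R / 4), om v y) + M * R ^ 3 / 4) := by
          have hc : IntegrableOn (fun _ : V => 2 * M) (closedBall x (R / 4)) :=
            continuous_const.continuousOn.integrableOn_compact (isCompact_closedBall _ _)
          rw [integral_const_mul, integral_add (omI x _) hc, setIntegral_const,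
            vol_ball x (by positivity), smul_eq_mul]
          ring
        rw [h8] at h5
        have h9 : D / (R / 8) * (2 * r * ((∫ y in closedBall x (R / 4), om v y) + M * R ^ 3 / 4))
            = 16 * D * r / R * ((∫ y in closedBall x (R / 4), om v y) + M * R ^ 3 / 4) := by
          field_simp
          ring
        rw [← h9]
        refine (neg_le_abs _).trans (h4.trans ?_)
        exact mul_le_mul_of_nonneg_left h5 (by positivity)
      have h4 : ∫ y, χ y * (1 + s y ^ 2)⁻¹ * (e ⬝ᵥ w y + 2 * M)
          ≤ 48 * D * r / R * ((∫ y in closedBall x (R / 4), om v y) + M * R ^ 3 / 4) := by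
        rw [hid, Fin.sum_univ_three]
        have a0 := h3 0
        have a1 := h3 1
        have a2 := h3 2
        have e1 : 48 * D * r / R * ((∫ y in closedBall x (R / 4), om v y) + M * R ^ 3 / 4)
            = 3 * (16 * D * r / R * ((∫ y in closedBall x (R / 4), om v y) + M * R ^ 3 / 4)) := by
          ring
        rw [e1]
        linarith
      exact h1.trans (h2.trans h4)
    -- combination
    set I4 := ∫ y in closedBall x (R / 4), om v y with hI4
    set I := ∫ y in closedBall x r, om v y with hI
    have hS : √(E / R) = √R * √E / R := by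
      rw [Real.sqrt_div hE0]
      have h1 : √R * √R = R := Real.mul_self_sqrt hR.le
      have h2 : 0 < √R := Real.sqrt_pos.2 hR
      field_simp
      rw [pow_two, h1]
    set S := √R * √E with hSdef
    have hS0 : 0 ≤ S := by positivity
    have h1 : I4 + M * R ^ 3 / 4 ≤ (24 * D + 3) * (S + M * R ^ 3) / κ := by
      rw [le_div_iff₀ hκ]
      have hMR : 0 ≤ M * R ^ 3 := by positivity
      have h2 : M * R ^ 3 / 4 * κ ≤ M * R ^ 3 / 4 := mul_le_of_le_one_right (by positivity) hκ1
      nlinarith [step1, mul_nonneg hD.le hMR, mul_nonneg hD.le hS0]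
    have h2 : κ / 10 * I ≤ 48 * D * r / R * ((24 * D + 3) * (S + M * R ^ 3) / κ) :=
      step2.trans (mul_le_mul_of_nonneg_left h1 (by positivity))
    have h3 : I ≤ 480 * D * (24 * D + 3) / κ ^ 2 * (S / R + M * R ^ 2) * r := by
      have h4 : I = 10 / κ * (κ / 10 * I) := by field_simp
      have h5 : 480 * D * (24 * D + 3) / κ ^ 2 * (S / R + M * R ^ 2) * r
          = 10 / κ * (48 * D * r / R * ((24 * D + 3) * (S + M * R ^ 3) / κ)) := by
        field_simp
        ring
      rw [h4, h5]
      exact mul_le_mul_of_nonneg_left h2 (by positivity)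
    rw [hS]
    refine h3.trans (mul_le_mul_of_nonneg_right (mul_le_mul_of_nonneg_right ?_ (by positivity)) hr.le)
    exact div_le_div_of_nonneg_right (by linarith) hκ2.le

end Pool.Agent.Q199.VD
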