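import Pool.Agent.Q67.VD.Defs
import Pool.Agent.H459R3.NS.Ibp

/-!
Integrals of periodic functions over small cubes, cut-off functions and integration by parts.
-/

open MeasureTheory Set Metric Filter Topology
open scoped ENNReal ContDiff
open H459R3.NS Pool.Agent.W268.NS

namespace Pool.Agent.Q199.VD

attribute [local instance] instMeasureSpaceUnitAddCircle

theorem cell_int {f : V → ℝ} (hf : Per f) (a : V) :
    ∫ x in Icc a (a + 1), f x = ∫ x in cube, f x := by
  let g : UnitAddTorus (Fin 3) → ℝ := fun t => (H459R3.NS.lift (fun x => (f x : ℂ)) t).re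
  have hp : Per (fun x => (f x : ℂ)) := fun i x => by simp only [hf i x]
  have hg : ∀ x, g (cov x) = f x := fun x => by
    show (H459R3.NS.lift (fun x => (f x : ℂ)) (cov x)).re = f x
    rw [lift_cov hp]
    simp
  have e1 : ∫ t, g t = ∫ x in cube, f x := by
    rw [integral_torus]
    simp_rw [hg]
  have e2 : ∫ t, g t = ∫ x in Icc a (a + 1), f x := by
    rw [UnitAddTorus.integral_preimage g a]
    have h1 : ({x : V | ∀ i, x i ∈ Ioc (a i) (a i + 1)} : Set V) =ᵐ[volume] Icc a (a + 1) := by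
      have e : ({x : V | ∀ i, x i ∈ Ioc (a i) (a i + 1)} : Set V)
          = Set.pi univ (fun i => Ioc (a i) ((a + 1) i)) := by
        ext x; simp
      rw [e]
      exact Measure.univ_pi_Ioc_ae_eq_Icc (μ := fun _ : Fin 3 => (volume : Measure ℝ))
    rw [Measure.restrict_congr_set h1]
    exact integral_congr_ae (Eventually.of_forall fun x => hg x)
  rw [← e2, e1]

theorem ball_le {f : V → ℝ} (hf : Per f) (hc : Continuous f) (h0 : ∀ x, 0 ≤ f x) (x : V) {ρ : ℝ}
    (hρ : ρ ≤ 1 / 2) : ∫ y in closedBall x ρ, f y ≤ ∫ y in cube, f y := by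
  rw [← cell_int hf (x - fun _ => 1 / 2)]
  refine setIntegral_mono_set (hc.continuousOn.integrableOn_compact isCompact_Icc)
    (Eventually.of_forall h0) (Eventually.of_forall ?_)
  intro y hy
  have h1 : ∀ i, |y i - x i| ≤ ρ := fun i => by
    have := (dist_pi_le_iff (by exact dist_nonneg.trans (mem_closedBall.1 hy))).1
      (mem_closedBall.1 hy) i
    rwa [Real.dist_eq] at this
  refine ⟨fun i => ?_, fun i => ?_⟩
  · have := abs_le.1 (h1 i)
    simp only [Pi.sub_apply]
    linarith [this.1]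
  · have := abs_le.1 (h1 i)
    simp only [Pi.sub_apply, Pi.add_apply, Pi.one_apply]
    linarith [this.2]

theorem vol_ball (x : V) {ρ : ℝ} (hρ : 0 ≤ ρ) : volume.real (closedBall x ρ) = (2 * ρ) ^ 3 := by
  rw [measureReal_def, Real.volume_pi_closedBall x hρ]
  simp only [Fintype.card_fin]
  rw [ENNReal.toReal_ofReal (by positivity)]

/-- Smooth cut-off functions. -/
theorem exists_cut : ∃ D : ℝ, 0 < D ∧ ∀ (x : V) (ρ : ℝ), 0 < ρ → ∃ χ : V → ℝ, ContDiff ℝ ∞ χ ∧
    HasCompactSupport χ ∧ (∀ y, 0 ≤ χ y) ∧ (∀ y, χ y ≤ 1) ∧ (∀ y ∈ closedBall x ρ, χ y = 1) ∧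
    (∀ y, y ∉ closedBall x (2 * ρ) → χ y = 0) ∧ (∀ j y, |pd j χ y| ≤ D / ρ) ∧
    (∀ j y, y ∉ closedBall x (2 * ρ) → pd j χ y = 0) := by
  let b : ContDiffBump (0 : V) := ⟨1, 2, one_pos, one_lt_two⟩
  have hb : ContDiff ℝ ∞ b := b.contDiff
  have hbd : ∃ D : ℝ, 0 < D ∧ ∀ y, ‖fderiv ℝ b y‖ ≤ D := by
    have hc : Continuous (fderiv ℝ b) := hb.continuous_fderiv (by norm_num)
    have hs : HasCompactSupport (fderiv ℝ b) := b.hasCompactSupport.fderiv (𝕜 := ℝ)
    obtain ⟨C, hC⟩ := hs.exists_bound_of_continuous hc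
    exact ⟨max C 1, by positivity, fun y => (hC y).trans (le_max_left _ _)⟩
  obtain ⟨D, hD, hDb⟩ := hbd
  refine ⟨D, hD, fun x ρ hρ => ?_⟩
  have hL : ContDiff ℝ ∞ (fun y : V => ρ⁻¹ • (y - x)) := by fun_prop
  have hd : ∀ y, HasFDerivAt (fun y : V => b (ρ⁻¹ • (y - x)))
      ((fderiv ℝ b (ρ⁻¹ • (y - x))).comp (ρ⁻¹ • ContinuousLinearMap.id ℝ V)) y := fun y => by
    have h1 : HasFDerivAt (fun y : V => ρ⁻¹ • (y - x)) (ρ⁻¹ • ContinuousLinearMap.id ℝ V) y :=
      ((hasFDerivAt_id y).sub_const x).const_smul ρ⁻¹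
    exact ((hb.differentiable (by norm_num) _).hasFDerivAt).comp y h1
  have hout : ∀ y, y ∉ closedBall x (2 * ρ) → b (ρ⁻¹ • (y - x)) = 0 := fun y hy => by
    have h1 : 2 * ρ < ‖y - x‖ := by
      rw [mem_closedBall, dist_eq_norm, not_le] at hy
      exact hy
    refine b.zero_of_le_dist ?_
    rw [dist_zero_right, norm_smul, norm_inv, Real.norm_eq_abs, abs_of_pos hρ]
    show (2 : ℝ) ≤ ρ⁻¹ * ‖y - x‖
    rw [inv_mul_eq_div, le_div_iff₀ hρ]
    exact h1.le
  refine ⟨fun y => b (ρ⁻¹ • (y - x)), hb.comp hL, ?_, fun y => b.nonneg, fun y => b.le_one, ?_,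
    hout, ?_, ?_⟩
  · exact HasCompactSupport.intro (isCompact_closedBall x (2 * ρ)) hout
  · intro y hy
    refine b.one_of_mem_closedBall ?_
    rw [mem_closedBall, dist_zero_right, norm_smul, norm_inv, Real.norm_eq_abs, abs_of_pos hρ]
    show ρ⁻¹ * ‖y - x‖ ≤ 1
    rw [inv_mul_eq_div, div_le_one hρ, ← dist_eq_norm]
    exact mem_closedBall.1 hy
  · intro j y
    rw [pd, (hd y).fderiv]
    have e : ((fderiv ℝ b (ρ⁻¹ • (y - x))).comp (ρ⁻¹ • ContinuousLinearMap.id ℝ V)) (Pi.single j 1)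
        = ρ⁻¹ * fderiv ℝ b (ρ⁻¹ • (y - x)) (Pi.single j 1) := by
      rw [ContinuousLinearMap.comp_apply]
      have : (ρ⁻¹ • ContinuousLinearMap.id ℝ V) (Pi.single j 1) = ρ⁻¹ • (Pi.single j 1 : V) := rfl
      rw [this, map_smul, smul_eq_mul]
    rw [e, abs_mul, abs_of_pos (inv_pos.2 hρ), inv_mul_eq_div]
    refine div_le_div_of_nonneg_right ?_ hρ.le
    rw [← Real.norm_eq_abs]
    refine ((fderiv ℝ b _).le_opNorm _).trans ?_
    have h1 : ‖(Pi.single j 1 : V)‖ = 1 := by
      rw [Pi.norm_single]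
      exact norm_one
    rw [h1, mul_one]
    exact hDb _
  · intro j y hy
    have h0 : (fun y : V => b (ρ⁻¹ • (y - x))) =ᶠ[𝓝 y] fun _ => (0 : ℝ) := by
      filter_upwards [isClosed_closedBall.isOpen_compl.mem_nhds hy] with z hz
      exact hout z hz
    rw [pd, h0.fderiv_eq]
    simp

/-- Integration by parts against a compactly supported function. -/
theorem ibp_cut {χ f : V → ℝ} (hχ : ContDiff ℝ 1 χ) (hs : HasCompactSupport χ)
    (hf : ContDiff ℝ 1 f) (j : Fin 3) :
    ∫ y, χ y * pd j f y = -∫ y, pd j χ y * f y := by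
  have c1 : Continuous (fun y => fderiv ℝ χ y (Pi.single j 1)) :=
    (hχ.continuous_fderiv one_ne_zero).clm_apply continuous_const
  have c2 : Continuous (fun y => fderiv ℝ f y (Pi.single j 1)) :=
    (hf.continuous_fderiv one_ne_zero).clm_apply continuous_const
  have s1 : HasCompactSupport (fun y => fderiv ℝ χ y (Pi.single j 1)) :=
    hs.fderiv_apply (𝕜 := ℝ) _
  exact integral_mul_fderiv_eq_neg_fderiv_mul_of_integrable
    ((c1.mul hf.continuous).integrable_of_hasCompactSupport (s1.mul_right))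
    ((hχ.continuous.mul c2).integrable_of_hasCompactSupport (hs.mul_right))
    ((hχ.continuous.mul hf.continuous).integrable_of_hasCompactSupport (hs.mul_right))
    (fun y _ => hχ.differentiable one_ne_zero y) (fun y _ => hf.differentiable one_ne_zero y)

end Pool.Agent.Q199.VD
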